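import Pool.Agent.H83.LS.Targets4
import Pool.Agent.H87.LS.SPL

/-! Polar coordinates and cylindrical splitting for the modules AVG, GA, WA. -/

set_option autoImplicit false

open MeasureTheory Set Pool.Agent.H83.LS FourierTransform
open scoped ENNReal NNReal

namespace Pool.Agent.H54.LS

/-! ### the splitting `jo` -/

theorem jo_eq_spl {n : ℕ} (y : EE n) (z : ℝ) : jo y z = Pool.Agent.H87.LS.spl n (y, z) := by
  ext i
  refine Fin.lastCases ?_ (fun j => ?_) i
  · rw [Pool.Agent.H87.LS.spl_last]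
    simp [jo]
  · rw [Pool.Agent.H87.LS.spl_castSucc]
    simp [jo]

theorem jo_last {n : ℕ} (y : EE n) (z : ℝ) : (jo y z) (Fin.last n) = z := by
  rw [jo_eq_spl, Pool.Agent.H87.LS.spl_last]

theorem jo_castSucc {n : ℕ} (y : EE n) (z : ℝ) (i : Fin n) : (jo y z) i.castSucc = y i := by
  rw [jo_eq_spl, Pool.Agent.H87.LS.spl_castSucc]

theorem jo_inner {n : ℕ} (y y' : EE n) (z z' : ℝ) :
    inner ℝ (jo y z) (jo y' z') = inner ℝ y y' + z * z' := by
  rw [jo_eq_spl, jo_eq_spl, Pool.Agent.H87.LS.spl_inner]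

theorem pr_jo {n : ℕ} (y : EE n) (z : ℝ) : pr (jo y z) = y := by
  ext i
  show (jo y z) i.castSucc = y i
  exact jo_castSucc y z i

theorem jo_pr {n : ℕ} (x : EE (n + 1)) : jo (pr x) (x (Fin.last n)) = x := by
  ext i
  refine Fin.lastCases ?_ (fun j => ?_) i
  · rw [jo_last]
  · rw [jo_castSucc]
    rfl

theorem jo_norm_sq {n : ℕ} (y : EE n) (z : ℝ) : ‖jo y z‖ ^ 2 = ‖y‖ ^ 2 + z ^ 2 := by
  rw [← real_inner_self_eq_norm_sq, jo_inner, real_inner_self_eq_norm_sq]
  ring

theorem hor_jo {n : ℕ} (y : EE n) (z : ℝ) : hor (jo y z) = ‖y‖ := by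
  unfold hor
  rw [jo_norm_sq, jo_last, add_sub_cancel_right, Real.sqrt_sq (norm_nonneg _)]

theorem hor_eq {n : ℕ} (x : EE (n + 1)) : hor x = ‖pr x‖ := by
  conv_lhs => rw [← jo_pr x]
  rw [hor_jo]

theorem norm_sq_eq {n : ℕ} (x : EE (n + 1)) : ‖x‖ ^ 2 = hor x ^ 2 + x (Fin.last n) ^ 2 := by
  conv_lhs => rw [← jo_pr x]
  rw [jo_norm_sq, hor_eq]

theorem inner_eq {n : ℕ} (x x' : EE (n + 1)) :
    inner ℝ x x' = inner ℝ (pr x) (pr x') + x (Fin.last n) * x' (Fin.last n) := by
  conv_lhs => rw [← jo_pr x, ← jo_pr x']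
  rw [jo_inner]

theorem hor_nonneg {n : ℕ} (x : EE (n + 1)) : 0 ≤ hor x := Real.sqrt_nonneg _

theorem hor_le_norm {n : ℕ} (x : EE (n + 1)) : hor x ≤ ‖x‖ := by
  have h1 := norm_sq_eq x
  nlinarith [norm_nonneg x, hor_nonneg x, sq_nonneg (x (Fin.last n))]

theorem continuous_jo {n : ℕ} : Continuous fun q : EE n × ℝ => jo q.1 q.2 := by
  unfold jo
  refine (PiLp.continuous_toLp 2 _).comp ?_
  refine continuous_pi fun i => ?_
  refine Fin.lastCases ?_ (fun j => ?_) i
  · simp only [Fin.snoc_last]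
    exact continuous_snd
  · simp only [Fin.snoc_castSucc]
    fun_prop

theorem continuous_pr {n : ℕ} : Continuous (pr : EE (n + 1) → EE n) := by
  unfold pr
  refine (PiLp.continuous_toLp 2 _).comp ?_
  fun_prop

theorem continuous_hor {n : ℕ} : Continuous (hor : EE (n + 1) → ℝ) := by
  unfold hor
  fun_prop

theorem mp_jo (n : ℕ) : MeasurePreserving (fun q : EE n × ℝ => jo q.1 q.2)
    (volume.prod volume) volume := by
  have : (fun q : EE n × ℝ => jo q.1 q.2) = Pool.Agent.H87.LS.spl n := by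
    funext q
    exact jo_eq_spl q.1 q.2
  rw [this]
  exact Pool.Agent.H87.LS.spl_mp n

/-! ### polar coordinates -/

/-- the unit sphere -/
abbrev Sp (n : ℕ) := Metric.sphere (0 : EE n) 1

/-- the surface measure -/
noncomputable abbrev sg (n : ℕ) : Measure (Sp n) := (volume : Measure (EE n)).toSphere

/-- the radial measure -/
noncomputable abbrev nu (n : ℕ) : Measure (Ioi (0 : ℝ)) := Measure.volumeIoiPow (n - 1)

/-- polar coordinates are measure preserving -/
theorem mp_polar (n : ℕ) (hn : 1 ≤ n) :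
    MeasurePreserving (fun q : Sp n × Ioi (0 : ℝ) => (q.2 : ℝ) • (q.1 : EE n))
      ((sg n).prod (nu n)) volume := by
  have : Nonempty (Fin n) := ⟨⟨0, hn⟩⟩
  have : Nontrivial (EE n) := inferInstance
  have h1 := (volume : Measure (EE n)).measurePreserving_homeomorphUnitSphereProd
  rw [finrank_euclideanSpace_fin] at h1
  have h2 := h1.symm (e := (homeomorphUnitSphereProd (EE n)).toMeasurableEquiv)
  have h3 := measurePreserving_subtype_coe (μa := (volume : Measure (EE n)))
    (s := ({0}ᶜ : Set (EE n))) (measurableSet_singleton _).compl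
  rw [restrict_compl_singleton] at h3
  exact h3.comp h2

end Pool.Agent.H54.LS
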