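import Pool.Agent.H54.LS.Sph
import Pool.Agent.H19.LS.PLE

/-! Module AVG: average over rotations. -/

set_option autoImplicit false

open MeasureTheory Set Pool.Agent.H83.LS FourierTransform
open scoped ENNReal NNReal

namespace Pool.Agent.H54.LS

/-- cylindrical coordinates -/
theorem mp_cyl (n : ℕ) (hn : 1 ≤ n) :
    MeasurePreserving (fun q : Sp n × (Ioi (0 : ℝ) × ℝ) => jo ((q.2.1 : ℝ) • (q.1 : EE n)) q.2.2)
      ((sg n).prod ((nu n).prod volume)) volume := by
  have h2 : MeasurePreserving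
      (Prod.map (fun q : Sp n × Ioi (0 : ℝ) => (q.2 : ℝ) • (q.1 : EE n)) (id : ℝ → ℝ))
      (((sg n).prod (nu n)).prod volume) (volume.prod volume) :=
    (mp_polar n hn).prod (MeasurePreserving.id volume)
  have h4 := (measurePreserving_prodAssoc (sg n) (nu n) (volume : Measure ℝ)).symm
  exact ((mp_jo n).comp h2).comp h4

theorem integral_mp {α β : Type*} [MeasurableSpace α] [MeasurableSpace β] {μ : Measure α}
    {ν : Measure β} {f : α → β} (h : MeasurePreserving f μ ν) {g : β → ℂ}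
    (hg : AEStronglyMeasurable g ν) : ∫ x, g (f x) ∂μ = ∫ y, g y ∂ν := by
  have h2 := integral_map (μ := μ) h.aemeasurable (f := g) (by rw [h.map_eq]; exact hg)
  rw [h.map_eq] at h2
  exact h2.symm

/-- rotation invariance of the surface measure -/
theorem rot_inv (n : ℕ) (hn : 1 ≤ n) (g : ℝ → ℂ) (hg : Measurable g) (a b : EE n)
    (hab : ‖a‖ = ‖b‖) :
    ∫ ω : Sp n, g (inner ℝ (ω : EE n) a) ∂(sg n) = ∫ ω : Sp n, g (inner ℝ (ω : EE n) b) ∂(sg n) := by
  classical
  let A : EE n ≃ₗᵢ[ℝ] EE n := ((Submodule.span ℝ {a - b})ᗮ).reflection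
  have hA : A a = b := Submodule.reflection_sub hab
  let φ : ℝ → ℂ := (Iio (1 : ℝ)).indicator 1
  have hφ : Measurable φ := measurable_one.indicator measurableSet_Iio
  let F : EE n → EE n → ℂ := fun c y => φ ‖y‖ * g (inner ℝ (‖y‖⁻¹ • y) c)
  have hFm : ∀ c, Measurable (F c) := by
    intro c
    refine (hφ.comp measurable_norm).mul (hg.comp ?_)
    fun_prop
  have key : ∀ c, ∫ y : EE n, F c y =
      (∫ ω : Sp n, g (inner ℝ (ω : EE n) c) ∂(sg n)) *
        ∫ ρ : Ioi (0 : ℝ), φ ρ ∂(nu n) := by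
    intro c
    rw [← integral_mp (mp_polar n hn) (hFm c).aestronglyMeasurable, ← integral_prod_mul]
    refine integral_congr_ae (ae_of_all _ fun q => ?_)
    obtain ⟨ω, ρ⟩ := q
    simp only [F]
    have hρ : 0 < (ρ : ℝ) := ρ.2
    have hω : ‖(ω : EE n)‖ = 1 := by
      have := ω.2
      rwa [mem_sphere_zero_iff_norm] at this
    have h1 : ‖(ρ : ℝ) • (ω : EE n)‖ = ρ := by
      rw [norm_smul, hω, mul_one, Real.norm_of_nonneg hρ.le]
    rw [h1, smul_smul, inv_mul_cancel₀ hρ.ne', one_smul, mul_comm]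
  have h2 : ∫ y : EE n, F b y = ∫ y : EE n, F a y := by
    rw [← integral_mp A.measurePreserving (hFm b).aestronglyMeasurable]
    refine integral_congr_ae (ae_of_all _ fun y => ?_)
    simp only [F]
    rw [A.norm_map, ← hA, ← map_smul, A.inner_map_map]
  have h3 : ∫ ρ : Ioi (0 : ℝ), φ ρ ∂(nu n) ≠ 0 := by
    have h4 : ∀ ρ : Ioi (0 : ℝ), φ ρ =
        (Iio (⟨1, mem_Ioi.2 one_pos⟩ : Ioi (0 : ℝ))).indicator (fun _ => (1 : ℂ)) ρ := by
      intro ρ
      simp only [φ, indicator]
      congr 1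
    simp_rw [h4]
    rw [integral_indicator_const (1 : ℂ) measurableSet_Iio]
    have h5 := Measure.volumeIoiPow_apply_Iio (n - 1) ⟨1, mem_Ioi.2 one_pos⟩
    have h6 : (nu n).real (Iio (⟨1, mem_Ioi.2 one_pos⟩ : Ioi (0 : ℝ))) =
        1 / (((n - 1 : ℕ) : ℝ) + 1) := by
      unfold Measure.real nu
      rw [h5, ENNReal.toReal_ofReal (by positivity)]
      simp
    rw [h6]
    have : (0 : ℝ) < 1 / (((n - 1 : ℕ) : ℝ) + 1) := by positivity
    exact smul_ne_zero this.ne' one_ne_zero
  rw [key, key] at h2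
  exact (mul_right_cancel₀ h3 h2).symm

/-- the average in cylindrical coordinates -/
noncomputable def avr {n : ℕ} (F : EE (n + 1) → ℂ) (ρ z : ℝ) : ℂ :=
  ∫ ω : Sp n, F (jo (ρ • (ω : EE n)) z) ∂(sg n)

theorem av_eq {n : ℕ} (F : EE (n + 1) → ℂ) (x : EE (n + 1)) :
    av F x = avr F (hor x) (x (Fin.last n)) := rfl

theorem norm_sp {n : ℕ} (ω : Sp n) : ‖(ω : EE n)‖ = 1 := by
  have := ω.2
  rwa [mem_sphere_zero_iff_norm] at this

theorem hor_cyl {n : ℕ} (ω : Sp n) (ρ : Ioi (0 : ℝ)) (z : ℝ) :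
    hor (jo ((ρ : ℝ) • (ω : EE n)) z) = ρ := by
  rw [hor_jo, norm_smul, norm_sp, mul_one, Real.norm_of_nonneg (le_of_lt ρ.2)]

theorem av_cyl {n : ℕ} (F : EE (n + 1) → ℂ) (ω : Sp n) (ρ : Ioi (0 : ℝ)) (z : ℝ) :
    av F (jo ((ρ : ℝ) • (ω : EE n)) z) = avr F ρ z := by
  rw [av_eq, hor_cyl, jo_last]

theorem measurable_rotmap (n : ℕ) : Measurable fun q : EE (n + 1) × Sp n =>
    jo (hor q.1 • (q.2 : EE n)) (q.1 (Fin.last n)) := by
  have h1 : Continuous fun q : EE (n + 1) × Sp n =>
      jo (hor q.1 • (q.2 : EE n)) (q.1 (Fin.last n)) := by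
    have h2 : Continuous fun q : EE (n + 1) × Sp n =>
        ((hor q.1 • (q.2 : EE n), q.1 (Fin.last n)) : EE n × ℝ) := by
      refine Continuous.prodMk ?_ ?_
      · exact (continuous_hor.comp continuous_fst).smul (continuous_subtype_val.comp continuous_snd)
      · fun_prop
    exact continuous_jo.comp h2
  exact h1.measurable

theorem measurable_rotmap' {n : ℕ} (x : EE (n + 1)) : Measurable fun ω : Sp n =>
    jo (hor x • (ω : EE n)) (x (Fin.last n)) := by
  have h2 : Continuous fun ω : Sp n => ((hor x • (ω : EE n), x (Fin.last n)) : EE n × ℝ) :=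
    Continuous.prodMk (continuous_subtype_val.const_smul (hor x)) continuous_const
  exact (continuous_jo.comp h2).measurable

theorem av_meas {n : ℕ} {F : EE (n + 1) → ℂ} (hF : Measurable F) : StronglyMeasurable (av F) := by
  have h1 : StronglyMeasurable fun q : EE (n + 1) × Sp n =>
      F (jo (hor q.1 • (q.2 : EE n)) (q.1 (Fin.last n))) :=
    (hF.comp (measurable_rotmap n)).stronglyMeasurable
  exact h1.integral_prod_right

/-- averaging preserves the integral up to the area of the sphere -/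
theorem lint_av (n : ℕ) (hn : 1 ≤ n) (h : EE (n + 1) → ℝ≥0∞) (hh : Measurable h) :
    ∫⁻ x, ∫⁻ ω : Sp n, h (jo (hor x • (ω : EE n)) (x (Fin.last n))) ∂(sg n) =
      (sg n) univ * ∫⁻ x, h x := by
  have hm : Measurable fun x : EE (n + 1) =>
      ∫⁻ ω : Sp n, h (jo (hor x • (ω : EE n)) (x (Fin.last n))) ∂(sg n) :=
    (hh.comp (measurable_rotmap n)).lintegral_prod_right'
  have hcm := (mp_cyl n hn).measurable
  have hm2 : Measurable fun q : Sp n × (Ioi (0 : ℝ) × ℝ) =>
      h (jo ((q.2.1 : ℝ) • (q.1 : EE n)) q.2.2) := hh.comp hcm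
  rw [← (mp_cyl n hn).lintegral_comp hm, ← (mp_cyl n hn).lintegral_comp hh]
  have e1 : ∀ q : Sp n × (Ioi (0 : ℝ) × ℝ),
      ∫⁻ ω : Sp n, h (jo (hor (jo ((q.2.1 : ℝ) • (q.1 : EE n)) q.2.2) • (ω : EE n))
        ((jo ((q.2.1 : ℝ) • (q.1 : EE n)) q.2.2) (Fin.last n))) ∂(sg n) =
      ∫⁻ ω : Sp n, h (jo ((q.2.1 : ℝ) • (ω : EE n)) q.2.2) ∂(sg n) := by
    intro q
    rw [hor_cyl, jo_last]
  simp_rw [e1]
  have hm3 : Measurable fun r : Ioi (0 : ℝ) × ℝ =>
      ∫⁻ ω : Sp n, h (jo ((r.1 : ℝ) • (ω : EE n)) r.2) ∂(sg n) := hm2.lintegral_prod_left'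
  have hm4 : AEMeasurable (fun a : Sp n × (Ioi (0 : ℝ) × ℝ) =>
      ∫⁻ ω : Sp n, h (jo ((a.2.1 : ℝ) • (ω : EE n)) a.2.2) ∂(sg n))
      ((sg n).prod ((nu n).prod volume)) := (hm3.comp measurable_snd).aemeasurable
  rw [lintegral_prod_symm _ hm4,
    lintegral_prod_symm _ hm2.aemeasurable, ← lintegral_const_mul _ hm3]
  refine lintegral_congr fun r => ?_
  simp only [lintegral_const]
  rw [mul_comm]

theorem av_norm_le {n : ℕ} {F : EE (n + 1) → ℂ} (x : EE (n + 1)) :
    ‖av F x‖ₑ ≤ ∫⁻ ω : Sp n, ‖F (jo (hor x • (ω : EE n)) (x (Fin.last n)))‖ₑ ∂(sg n) :=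
  enorm_integral_le_lintegral_enorm _

/-- Jensen for a finite measure -/
theorem lint_rpow_le {α : Type*} [MeasurableSpace α] (μ : Measure α) [IsFiniteMeasure μ]
    (f : α → ℝ≥0∞) (hf : AEMeasurable f μ) (p : ℝ) (hp : 1 ≤ p) :
    (∫⁻ a, f a ∂μ) ^ p ≤ μ univ ^ (p - 1) * ∫⁻ a, f a ^ p ∂μ := by
  rcases eq_or_lt_of_le hp with h | h
  · subst h
    simp
  · have hp0 : 0 < p := by linarith
    have hpq : p.HolderConjugate (Real.conjExponent p) := Real.HolderConjugate.conjExponent h
    have h1 := ENNReal.lintegral_mul_le_Lp_mul_Lq μ hpq hf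
      (aemeasurable_const (b := (1 : ℝ≥0∞)))
    simp only [Pi.mul_apply, mul_one, ENNReal.one_rpow, lintegral_one] at h1
    have h2 := ENNReal.rpow_le_rpow h1 hp0.le
    rw [ENNReal.mul_rpow_of_nonneg _ _ hp0.le, ← ENNReal.rpow_mul, ← ENNReal.rpow_mul,
      one_div_mul_cancel hp0.ne', ENNReal.rpow_one] at h2
    have h3 : 1 / Real.conjExponent p * p = p - 1 := by
      unfold Real.conjExponent
      field_simp
    rw [h3, mul_comm] at h2
    exact h2

theorem avg : T_AVG := by
  intro n p hn hp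
  have hn1 : 1 ≤ n := by omega
  have hV : (sg n) univ ≠ ⊤ := measure_ne_top _ _
  refine ⟨(((sg n) univ) ^ p).toNNReal, ?_⟩
  have hVp : ((((sg n) univ) ^ p).toNNReal : ℝ≥0∞) = ((sg n) univ) ^ p :=
    ENNReal.coe_toNNReal (ENNReal.rpow_ne_top_of_nonneg (by linarith) hV)
  intro F A hFm hFi hFA
  have hm := av_meas hFm
  have hLp : ∀ q : ℝ, 1 ≤ q → ∫⁻ x, ‖av F x‖ₑ ^ q ≤ ((sg n) univ) ^ q * ∫⁻ x, ‖F x‖ₑ ^ q := by
    intro q hq
    have h1 : ∀ x, ‖av F x‖ₑ ^ q ≤ ((sg n) univ) ^ (q - 1) *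
        ∫⁻ ω : Sp n, ‖F (jo (hor x • (ω : EE n)) (x (Fin.last n)))‖ₑ ^ q ∂(sg n) := by
      intro x
      have h0 : Measurable fun ω : Sp n => F (jo (hor x • (ω : EE n)) (x (Fin.last n))) :=
        hFm.comp (measurable_rotmap' x)
      have h00 := ENNReal.rpow_le_rpow (av_norm_le (F := F) x) (by linarith : (0 : ℝ) ≤ q)
      have h01 := lint_rpow_le (sg n)
        (fun ω : Sp n => ‖F (jo (hor x • (ω : EE n)) (x (Fin.last n)))‖ₑ) h0.enorm.aemeasurable q hq
      exact h00.trans h01
    have h2 : Measurable fun x : EE (n + 1) => ‖F x‖ₑ ^ q := hFm.enorm.pow_const q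
    calc ∫⁻ x, ‖av F x‖ₑ ^ q ≤ ∫⁻ x, ((sg n) univ) ^ (q - 1) *
        ∫⁻ ω : Sp n, ‖F (jo (hor x • (ω : EE n)) (x (Fin.last n)))‖ₑ ^ q ∂(sg n) :=
          lintegral_mono h1
      _ = ((sg n) univ) ^ (q - 1) * ((sg n) univ * ∫⁻ x, ‖F x‖ₑ ^ q) := by
          rw [lintegral_const_mul' _ _ (ENNReal.rpow_ne_top_of_nonneg (by linarith) hV),
            lint_av n hn1 _ h2]
      _ = _ := by
          rw [← mul_assoc]
          congr 1
          conv_rhs => rw [show q = (q - 1) + 1 by ring]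
          rw [ENNReal.rpow_add_of_nonneg _ _ (by linarith) zero_le_one, ENNReal.rpow_one]
  have hint : Integrable (av F) := by
    refine ⟨hm.aestronglyMeasurable, ?_⟩
    have h1 := hLp 1 le_rfl
    simp only [ENNReal.rpow_one] at h1
    exact h1.trans_lt (ENNReal.mul_lt_top hV.lt_top hFi.2)
  refine ⟨?_, hm.measurable, hint, ?_, ?_, ?_⟩
  · intro x y h1 h2
    rw [av_eq, av_eq]
    have : hor x = hor y := by
      unfold hor
      rw [h1, h2]
    rw [this, h1]
  · refine ⟨A * ((sg n) univ).toReal, fun x => ?_⟩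
    exact norm_integral_le_of_norm_le_const (ae_of_all _ fun ω => hFA _)
  · intro ξ
    have hcm := (mp_cyl n hn1).measurable
    -- the left side
    have hL1 : AEStronglyMeasurable (fun x : EE (n + 1) => e (-inner ℝ x ξ) * av F x) :=
      ((continuous_e.comp (by fun_prop)).aestronglyMeasurable).mul hm.aestronglyMeasurable
    have hLi : Integrable (fun x : EE (n + 1) => e (-inner ℝ x ξ) * av F x) := by
      apply hint.bdd_mul (c := 1)
      · exact (continuous_e.comp (by fun_prop)).aestronglyMeasurable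
      · exact Filter.Eventually.of_forall (fun ζ => (norm_e _).le)
    rw [Pool.Agent.H19.LS.fourier_e, ← integral_mp (mp_cyl n hn1) hL1]
    have hLi' : Integrable (fun q : Sp n × (Ioi (0 : ℝ) × ℝ) =>
        e (-inner ℝ (jo ((q.2.1 : ℝ) • (q.1 : EE n)) q.2.2) ξ) *
          av F (jo ((q.2.1 : ℝ) • (q.1 : EE n)) q.2.2)) ((sg n).prod ((nu n).prod volume)) :=
      (mp_cyl n hn1).integrable_comp_of_integrable hLi
    rw [integral_prod_symm _ hLi']
    -- the right side
    let J : EE (n + 1) → ℂ := fun x =>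
      ∫ ω : Sp n, e (-inner ℝ (jo (hor x • (ω : EE n)) (x (Fin.last n))) ξ) ∂(sg n)
    have hJm : StronglyMeasurable J := by
      have h1 : StronglyMeasurable fun q : EE (n + 1) × Sp n =>
          e (-inner ℝ (jo (hor q.1 • (q.2 : EE n)) (q.1 (Fin.last n))) ξ) := by
        have : Measurable fun y : EE (n + 1) => e (-inner ℝ y ξ) :=
          (continuous_e.comp (by fun_prop)).measurable
        exact (this.comp (measurable_rotmap n)).stronglyMeasurable
      exact h1.integral_prod_right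
    have hJb : ∀ x, ‖J x‖ ≤ 1 * ((sg n) univ).toReal := fun x =>
      norm_integral_le_of_norm_le_const (ae_of_all _ fun ω => (norm_e _).le)
    have hJF : Integrable (fun x => J x * F x) :=
      hFi.bdd_mul (c := 1 * ((sg n) univ).toReal) hJm.aestronglyMeasurable (ae_of_all _ hJb)
    have hR : av (𝓕 F) ξ = ∫ x : EE (n + 1), J x * F x := by
      unfold av
      simp_rw [Pool.Agent.H19.LS.fourier_e]
      rw [integral_integral_swap]
      · refine integral_congr_ae (ae_of_all _ fun x => ?_)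
        simp only
        rw [integral_mul_const]
        congr 1
        simp only [J]
        have e1 : ∀ ω : Sp n, e (-inner ℝ x (jo (hor ξ • (ω : EE n)) (ξ (Fin.last n)))) =
            e (-(inner ℝ (ω : EE n) (hor ξ • pr x) + x (Fin.last n) * ξ (Fin.last n))) := by
          intro ω
          rw [inner_eq, pr_jo, jo_last, inner_smul_right, inner_smul_right, real_inner_comm]
        have e2 : ∀ ω : Sp n, e (-inner ℝ (jo (hor x • (ω : EE n)) (x (Fin.last n))) ξ) =
            e (-(inner ℝ (ω : EE n) (hor x • pr ξ) + x (Fin.last n) * ξ (Fin.last n))) := by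
          intro ω
          rw [inner_eq, pr_jo, jo_last, inner_smul_right, inner_smul_left]
          simp
        simp_rw [e1, e2]
        apply rot_inv n hn1 (fun s => e (-(s + x (Fin.last n) * ξ (Fin.last n))))
          ((continuous_e.comp (by fun_prop)).measurable)
        rw [norm_smul, norm_smul, ← hor_eq, ← hor_eq, Real.norm_of_nonneg (hor_nonneg _),
          Real.norm_of_nonneg (hor_nonneg _), mul_comm]
      · have h1 : Integrable (fun q : Sp n × EE (n + 1) => (1 : ℂ) * F q.2)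
            ((sg n).prod volume) := (integrable_const (1 : ℂ)).mul_prod hFi
        have h2 : Integrable (fun q : Sp n × EE (n + 1) =>
            e (-inner ℝ q.2 (jo (hor ξ • (q.1 : EE n)) (ξ (Fin.last n)))) *
              ((1 : ℂ) * F q.2)) ((sg n).prod volume) := by
          apply h1.bdd_mul (c := 1)
          · apply Continuous.aestronglyMeasurable
            apply continuous_e.comp
            have h3 : Continuous fun q : Sp n × EE (n + 1) =>
                jo (hor ξ • (q.1 : EE n)) (ξ (Fin.last n)) := by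
              have h4 : Continuous fun q : Sp n × EE (n + 1) =>
                  ((hor ξ • (q.1 : EE n), ξ (Fin.last n)) : EE n × ℝ) := by
                refine Continuous.prodMk ?_ continuous_const
                have h5 : Continuous fun q : Sp n × EE (n + 1) => (q.1 : EE n) :=
                  continuous_subtype_val.comp continuous_fst
                exact h5.const_smul (hor ξ)
              exact continuous_jo.comp h4
            exact (continuous_snd.inner h3).neg
          · exact Filter.Eventually.of_forall (fun ζ => (norm_e _).le)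
        refine h2.congr (ae_of_all _ fun q => ?_)
        simp [Function.uncurry]
    rw [hR, ← integral_mp (mp_cyl n hn1) hJF.1]
    have hJF' : Integrable (fun q : Sp n × (Ioi (0 : ℝ) × ℝ) =>
        J (jo ((q.2.1 : ℝ) • (q.1 : EE n)) q.2.2) *
          F (jo ((q.2.1 : ℝ) • (q.1 : EE n)) q.2.2)) ((sg n).prod ((nu n).prod volume)) :=
      (mp_cyl n hn1).integrable_comp_of_integrable hJF
    rw [integral_prod_symm _ hJF']
    refine integral_congr_ae (ae_of_all _ fun r => ?_)
    obtain ⟨ρ, z⟩ := r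
    simp only [J]
    simp_rw [av_cyl, hor_cyl, jo_last]
    rw [integral_mul_const, integral_const_mul]
    rfl
  · rw [hVp]
    exact hLp p hp

end Pool.Agent.H54.LS
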