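import Pool.Agent.H54.LS.AVG
import Pool.Agent.H73.LS.Core
import Pool.Agent.H19.LS.YG

/-! Module GA: axially symmetric functions attached to a Schwartz function. -/

set_option autoImplicit false

open MeasureTheory Set Pool.Agent.H83.LS FourierTransform Pool.Agent.H54.LS
open scoped ENNReal NNReal SchwartzMap

namespace Pool.Agent.H54.LS.GA

open Pool.Agent.H73.LS (eta0_one eta0_zero eta0_nonneg eta0_le_one continuous_chi continuous_eta0)

theorem chi_supp {s : ℝ} (h : chi s ≠ 0) : 1 / 2 ≤ s ∧ s ≤ 2 := by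
  unfold chi at h
  constructor
  · by_contra hs
    push Not at hs
    rw [eta0_one (by linarith), eta0_one (by linarith)] at h
    simp at h
  · by_contra hs
    push Not at hs
    rw [eta0_zero (by linarith), eta0_zero (by linarith)] at h
    simp at h

theorem chis_supp {s : ℝ} (h : chis s ≠ 0) : 1 / 4 ≤ s ∧ s ≤ 4 := by
  unfold chis at h
  constructor
  · by_contra hs
    push Not at hs
    rw [eta0_one (by linarith), eta0_one (by linarith)] at h
    simp at h
  · by_contra hs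
    push Not at hs
    rw [eta0_zero (by linarith), eta0_zero (by linarith)] at h
    simp at h

theorem chi_abs_le (s : ℝ) : |chi s| ≤ 1 := by
  unfold chi
  rw [abs_le]
  have h1 := eta0_nonneg s
  have h2 := eta0_le_one s
  have h3 := eta0_nonneg (2 * s)
  have h4 := eta0_le_one (2 * s)
  constructor <;> linarith

theorem chis_abs_le (s : ℝ) : |chis s| ≤ 1 := by
  unfold chis
  rw [abs_le]
  have h1 := eta0_nonneg (s / 2)
  have h2 := eta0_le_one (s / 2)
  have h3 := eta0_nonneg (4 * s)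
  have h4 := eta0_le_one (4 * s)
  constructor <;> linarith

theorem eta0_smooth : ContDiff ℝ (⊤ : ℕ∞) eta0 := by
  unfold eta0
  exact Real.smoothTransition.contDiff.comp (contDiff_const.sub contDiff_id)

theorem chi_smooth : ContDiff ℝ (⊤ : ℕ∞) chi := by
  unfold chi
  exact eta0_smooth.sub (eta0_smooth.comp (contDiff_const.mul contDiff_id))

theorem chis_smooth : ContDiff ℝ (⊤ : ℕ∞) chis := by
  unfold chis
  exact (eta0_smooth.comp (contDiff_id.div_const 2)).sub
    (eta0_smooth.comp (contDiff_const.mul contDiff_id))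

theorem continuous_chis : Continuous chis := chis_smooth.continuous

theorem chi_CB : CB 0 1 (fun s => ((chi s : ℝ) : ℂ)) := by
  refine ⟨Complex.ofRealCLM.contDiff.comp chi_smooth, ?_, ?_⟩
  · intro s h
    have h0 : chi s ≠ 0 := fun h0 => h (by simp [h0])
    have := chi_supp h0
    constructor <;> linarith
  · intro k hk s
    obtain rfl : k = 0 := by omega
    rw [iteratedDeriv_zero, Complex.norm_real]
    exact chi_abs_le s

theorem chis_CB : CB 0 1 (fun s => ((chis s : ℝ) : ℂ)) := by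
  refine ⟨Complex.ofRealCLM.contDiff.comp chis_smooth, ?_, ?_⟩
  · intro s h
    have h0 : chis s ≠ 0 := fun h0 => h (by simp [h0])
    have := chis_supp h0
    constructor <;> linarith
  · intro k hk s
    obtain rfl : k = 0 := by omega
    rw [iteratedDeriv_zero, Complex.norm_real]
    exact chis_abs_le s

/-! ### the symbols -/

variable {n : ℕ}

/-- the cut off -/
noncomputable def xx (lam Lam : ℝ) (ξ : EE (n + 1)) : ℝ := chi (hor ξ / Lam) * chis (‖ξ‖ / lam)

/-- the direction -/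
noncomputable def th (Lam : ℝ) (ξ : EE (n + 1)) : EE n := (1 / max (hor ξ) (Lam / 2)) • pr ξ

/-- the symbol at radius `ρ` -/
noncomputable def SS (W : EE n → ℂ) (a : EE n) (lam Lam ρ : ℝ) (ξ : EE (n + 1)) : ℂ :=
  e (-(inner ℝ a (ρ • th Lam ξ))) * W (ρ • th Lam ξ) * ((xx lam Lam ξ : ℝ) : ℂ)

theorem xx_cont (lam Lam : ℝ) : Continuous (xx lam Lam : EE (n + 1) → ℝ) := by
  unfold xx
  exact (continuous_chi.comp (continuous_hor.div_const _)).mul
    (continuous_chis.comp (continuous_norm.div_const _))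

theorem th_cont {Lam : ℝ} (hL : 0 < Lam) : Continuous (th Lam : EE (n + 1) → EE n) := by
  unfold th
  have h1 : Continuous fun ξ : EE (n + 1) => (1 : ℝ) / max (hor ξ) (Lam / 2) := by
    refine continuous_const.div (continuous_hor.max continuous_const) fun ξ => ?_
    have : 0 < max (hor ξ) (Lam / 2) := lt_max_of_lt_right (by linarith)
    exact this.ne'
  exact h1.smul continuous_pr

theorem xx_le (lam Lam : ℝ) (ξ : EE (n + 1)) : ‖((xx lam Lam ξ : ℝ) : ℂ)‖ ≤ 1 := by
  rw [Complex.norm_real, Real.norm_eq_abs]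
  unfold xx
  rw [abs_mul]
  exact mul_le_one₀ (chi_abs_le _) (abs_nonneg _) (chis_abs_le _)

theorem xx_supp {lam Lam : ℝ} (hl : 0 < lam) (hL : 0 < Lam) {ξ : EE (n + 1)}
    (h : xx lam Lam ξ ≠ 0) : Lam / 2 ≤ hor ξ ∧ ‖ξ‖ ≤ 4 * lam := by
  unfold xx at h
  have h1 := (chi_supp (left_ne_zero_of_mul h)).1
  have h2 := (chis_supp (right_ne_zero_of_mul h)).2
  rw [le_div_iff₀ hL] at h1
  rw [div_le_iff₀ hl] at h2
  constructor <;> linarith

theorem th_norm {lam Lam : ℝ} (hl : 0 < lam) (hL : 0 < Lam) {ξ : EE (n + 1)}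
    (h : xx lam Lam ξ ≠ 0) : th Lam ξ = (1 / hor ξ) • pr ξ ∧ ‖th Lam ξ‖ = 1 := by
  have h1 := (xx_supp hl hL h).1
  have h2 : max (hor ξ) (Lam / 2) = hor ξ := max_eq_left h1
  have h3 : th Lam ξ = (1 / hor ξ) • pr ξ := by
    unfold th
    rw [h2]
  refine ⟨h3, ?_⟩
  have h4 : 0 < hor ξ := by linarith
  rw [h3, norm_smul, ← hor_eq, norm_div, norm_one, Real.norm_of_nonneg h4.le,
    one_div_mul_cancel h4.ne']

theorem SS_cont {X : Type*} [TopologicalSpace X] {W : EE n → ℂ} (hW : Continuous W) (a : EE n)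
    (lam : ℝ) {Lam : ℝ} (hL : 0 < Lam) (r : X → ℝ) (x : X → EE (n + 1)) (hr : Continuous r)
    (hx : Continuous x) : Continuous fun q : X => SS W a lam Lam (r q) (x q) := by
  unfold SS
  have h1 : Continuous fun q : X => r q • th Lam (x q) := hr.smul ((th_cont hL).comp hx)
  refine Continuous.mul (Continuous.mul ?_ (hW.comp h1)) ?_
  · exact continuous_e.comp ((continuous_const.inner h1).neg)
  · exact Complex.continuous_ofReal.comp ((xx_cont lam Lam).comp hx)

theorem SS_eq {W : EE n → ℂ} (a : EE n) {lam Lam : ℝ} (hl : 0 < lam) (hL : 0 < Lam) (ρ : ℝ)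
    (ξ : EE (n + 1)) : SS W a lam Lam ρ ξ = e (inner ℝ (-a) ((ρ / hor ξ) • pr ξ)) *
      W ((ρ / hor ξ) • pr ξ) * ((chi (hor ξ / Lam) : ℝ) : ℂ) * ((chis (‖ξ‖ / lam) : ℝ) : ℂ) := by
  by_cases h : xx lam Lam ξ = 0
  · have h2 : ((chi (hor ξ / Lam) : ℝ) : ℂ) * ((chis (‖ξ‖ / lam) : ℝ) : ℂ) = 0 := by
      rw [← Complex.ofReal_mul]
      unfold xx at h
      rw [h]
      simp
    unfold SS
    rw [h, mul_assoc _ _ ((chis (‖ξ‖ / lam) : ℝ) : ℂ), h2]
    simp
  · have h1 := (th_norm hl hL h).1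
    unfold SS
    rw [h1, smul_smul, inner_neg_left, mul_one_div]
    unfold xx
    push_cast
    ring

theorem SS_supp {W : EE n → ℂ} (hW : AN W) (a : EE n) {lam Lam : ℝ} (hl : 0 < lam)
    (hL : 0 < Lam) {ρ : ℝ} (hρ : 0 < ρ) {ξ : EE (n + 1)} (h : SS W a lam Lam ρ ξ ≠ 0) :
    1 / 8 ≤ ρ ∧ ρ ≤ 8 ∧ ‖ξ‖ ≤ 4 * lam := by
  unfold SS at h
  have h1 : xx lam Lam ξ ≠ 0 := by
    intro h0
    apply h
    rw [h0]
    simp
  have h2 : W (ρ • th Lam ξ) ≠ 0 := right_ne_zero_of_mul (left_ne_zero_of_mul h)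
  have h3 := hW.2 _ h2
  rw [norm_smul, (th_norm hl hL h1).2, mul_one, Real.norm_of_nonneg hρ.le] at h3
  exact ⟨h3.1, h3.2, (xx_supp hl hL h1).2⟩

theorem AN_bdd {W : EE n → ℂ} (hW : AN W) : ∃ B : ℝ, 0 < B ∧ ∀ y, ‖W y‖ ≤ B := by
  have hc : HasCompactSupport W := by
    apply HasCompactSupport.of_support_subset_isCompact (isCompact_closedBall (0 : EE n) 8)
    intro y hy
    rw [mem_closedBall_zero_iff]
    exact (hW.2 y hy).2
  obtain ⟨C, hC⟩ := hW.1.continuous.bounded_above_of_compact_support hc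
  exact ⟨max C 1, lt_max_of_lt_right one_pos, fun y => (hC y).trans (le_max_left _ _)⟩

theorem SS_le {W : EE n → ℂ} {B : ℝ} (hB : ∀ y, ‖W y‖ ≤ B) (a : EE n) (lam Lam ρ : ℝ)
    (ξ : EE (n + 1)) : ‖SS W a lam Lam ρ ξ‖ ≤ B := by
  unfold SS
  rw [norm_mul, norm_mul, norm_e, one_mul]
  have hB0 : 0 ≤ B := (norm_nonneg _).trans (hB 0)
  calc ‖W (ρ • th Lam ξ)‖ * ‖((xx lam Lam ξ : ℝ) : ℂ)‖ ≤ B * 1 :=
        mul_le_mul (hB _) (xx_le _ _ _) (norm_nonneg _) hB0
    _ = B := mul_one B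

/-- the radial cut off set -/
def I9 : Set (Ioi (0 : ℝ)) := Iio ⟨9, mem_Ioi.2 (by norm_num)⟩

theorem I9_fin (n : ℕ) : (nu n) I9 ≠ ⊤ := by
  unfold I9 nu
  rw [Measure.volumeIoiPow_apply_Iio]
  exact ENNReal.ofReal_ne_top

theorem I9_meas : MeasurableSet I9 := measurableSet_Iio

/-- the total symbol -/
noncomputable def mm (W : EE n → ℂ) (a : EE n) (lam Lam : ℝ) (ξ : EE (n + 1)) : ℂ :=
  ∫ ρ : Ioi (0 : ℝ), SS W a lam Lam ρ ξ ∂(nu n)

theorem SS_ind {W : EE n → ℂ} (hW : AN W) {B : ℝ} (hB : ∀ y, ‖W y‖ ≤ B) (a : EE n)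
    {lam Lam : ℝ} (hl : 0 < lam) (hL : 0 < Lam) (ρ : Ioi (0 : ℝ)) (ξ : EE (n + 1)) :
    ‖SS W a lam Lam ρ ξ‖ ≤ I9.indicator (fun _ => B) ρ := by
  by_cases h : SS W a lam Lam ρ ξ = 0
  · rw [h, norm_zero]
    exact indicator_nonneg (fun _ _ => (norm_nonneg _).trans (hB 0)) _
  · have h1 := (SS_supp hW a hl hL ρ.2 h).2.1
    have h2 : ρ ∈ I9 := by
      show ρ < _
      rw [← Subtype.coe_lt_coe]
      show (ρ : ℝ) < 9
      linarith
    rw [indicator_of_mem h2]
    exact SS_le hB a lam Lam ρ ξ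

theorem ind_int (n : ℕ) (B : ℝ) : Integrable (I9.indicator fun _ => B) (nu n) := by
  rw [integrable_indicator_iff I9_meas]
  exact integrableOn_const (I9_fin n) (by finiteness)

theorem mm_cont {W : EE n → ℂ} (hW : AN W) (a : EE n) {lam Lam : ℝ} (hl : 0 < lam)
    (hL : 0 < Lam) : Continuous (mm W a lam Lam : EE (n + 1) → ℂ) := by
  obtain ⟨B, -, hB⟩ := AN_bdd hW
  unfold mm
  refine continuous_of_dominated (bound := I9.indicator fun _ => B) ?_ ?_ (ind_int n B) ?_
  · intro ξ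
    exact (SS_cont hW.1.continuous a lam hL (fun ρ : Ioi (0 : ℝ) => (ρ : ℝ)) (fun _ => ξ)
      continuous_subtype_val continuous_const).aestronglyMeasurable
  · intro ξ
    exact ae_of_all _ fun ρ => SS_ind hW hB a hl hL ρ ξ
  · refine ae_of_all _ fun ρ => ?_
    exact SS_cont hW.1.continuous a lam hL (fun _ : EE (n + 1) => (ρ : ℝ)) (fun ξ => ξ)
      continuous_const continuous_id

theorem mm_supp {W : EE n → ℂ} (hW : AN W) (a : EE n) {lam Lam : ℝ} (hl : 0 < lam)
    (hL : 0 < Lam) {ξ : EE (n + 1)} (h : mm W a lam Lam ξ ≠ 0) : ‖ξ‖ ≤ 4 * lam := by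
  by_contra hcon
  apply h
  unfold mm
  have : ∀ ρ : Ioi (0 : ℝ), SS W a lam Lam ρ ξ = 0 := by
    intro ρ
    by_contra h1
    exact hcon (SS_supp hW a hl hL ρ.2 h1).2.2
  simp_rw [this]
  simp

theorem mm_hcs {W : EE n → ℂ} (hW : AN W) (a : EE n) {lam Lam : ℝ} (hl : 0 < lam)
    (hL : 0 < Lam) : HasCompactSupport (mm W a lam Lam : EE (n + 1) → ℂ) := by
  apply HasCompactSupport.of_support_subset_isCompact (isCompact_closedBall (0 : EE (n + 1)) (4 * lam))
  intro ξ hξ
  rw [mem_closedBall_zero_iff]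
  exact mm_supp hW a hl hL hξ

/-- the `L¹` norm of the kernel -/
theorem mk_le (hK : T_KERN) (hn : 2 ≤ n) {W : EE n → ℂ} (hW : AN W) : ∃ C : ℝ≥0,
    ∀ (a : EE n) (lam Lam : ℝ), 0 < Lam → Lam ≤ 4 * lam →
    ∫⁻ x : EE (n + 1), ‖MK (mm W a lam Lam) x‖ₑ ≤ C * ENNReal.ofReal ((1 + ‖a‖) ^ (n + 2)) := by
  obtain ⟨B, hB0, hB⟩ := AN_bdd hW
  obtain ⟨C, hC⟩ := hK n hn W _ _ hW chi_CB chis_CB
  refine ⟨C * ((nu n) I9).toNNReal, ?_⟩
  intro a lam Lam hL hLl
  have hl : 0 < lam := by linarith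
  have hK1 : ∀ ρ : Ioi (0 : ℝ), ∫⁻ x : EE (n + 1), ‖MK (SS W a lam Lam ρ) x‖ₑ ≤
      I9.indicator (fun _ => C * ENNReal.ofReal ((1 + ‖a‖) ^ (n + 2))) ρ := by
    intro ρ
    by_cases h8 : 1 / 8 ≤ (ρ : ℝ) ∧ (ρ : ℝ) ≤ 8
    · have h2 : ρ ∈ I9 := by
        show ρ < _
        rw [← Subtype.coe_lt_coe]
        show (ρ : ℝ) < 9
        linarith [h8.2]
      rw [indicator_of_mem h2]
      have h3 := hC (-a) ρ lam Lam h8.1 h8.2 hL hLl
      rw [norm_neg] at h3
      have h4 : SS W a lam Lam ρ = fun ξ : EE (n + 1) => e (inner ℝ (-a) (((ρ : ℝ) / hor ξ) • pr ξ)) *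
          W (((ρ : ℝ) / hor ξ) • pr ξ) * ((chi (hor ξ / Lam) : ℝ) : ℂ) *
            ((chis (‖ξ‖ / lam) : ℝ) : ℂ) := by
        funext ξ
        exact SS_eq a hl hL ρ ξ
      rw [h4]
      exact h3
    · have h3 : SS W a lam Lam ρ = fun _ : EE (n + 1) => (0 : ℂ) := by
        funext ξ
        by_contra h4
        have h5 := SS_supp hW a hl hL ρ.2 h4
        exact h8 ⟨h5.1, h5.2.1⟩
      rw [h3]
      unfold MK
      simp
  have hrep : ∀ x : EE (n + 1), MK (mm W a lam Lam) x =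
      ∫ ρ : Ioi (0 : ℝ), MK (SS W a lam Lam ρ) x ∂(nu n) := by
    intro x
    unfold MK mm
    have hI : Integrable (Function.uncurry fun (ξ : EE (n + 1)) (ρ : Ioi (0 : ℝ)) =>
        e (inner ℝ x ξ) * SS W a lam Lam ρ ξ) (volume.prod (nu n)) := by
      have h1 : Integrable (fun q : EE (n + 1) × Ioi (0 : ℝ) =>
          (Metric.closedBall (0 : EE (n + 1)) (4 * lam)).indicator (fun _ => (1 : ℝ)) q.1 *
            I9.indicator (fun _ => B) q.2) (volume.prod (nu n)) := by
        refine Integrable.mul_prod ?_ (ind_int n B)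
        rw [integrable_indicator_iff measurableSet_closedBall]
        exact integrableOn_const measure_closedBall_lt_top.ne (by finiteness)
      refine h1.mono' ?_ (ae_of_all _ fun q => ?_)
      · apply Continuous.aestronglyMeasurable
        refine Continuous.mul (continuous_e.comp (continuous_const.inner continuous_fst)) ?_
        exact SS_cont hW.1.continuous a lam hL (fun q : EE (n + 1) × Ioi (0 : ℝ) => (q.2 : ℝ))
          (fun q => q.1) (continuous_subtype_val.comp continuous_snd) continuous_fst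
      · obtain ⟨ξ, ρ⟩ := q
        simp only [Function.uncurry]
        rw [norm_mul, norm_e, one_mul]
        by_cases h3 : SS W a lam Lam ρ ξ = 0
        · rw [h3, norm_zero]
          exact mul_nonneg (indicator_nonneg (fun _ _ => zero_le_one) _)
            (indicator_nonneg (fun _ _ => hB0.le) _)
        · have h4 := (SS_supp hW a hl hL ρ.2 h3).2.2
          rw [indicator_of_mem (by rwa [mem_closedBall_zero_iff]), one_mul]
          exact SS_ind hW hB a hl hL ρ ξ
    rw [← integral_integral_swap hI]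
    refine integral_congr_ae (ae_of_all _ fun ξ => ?_)
    simp only
    rw [integral_const_mul]
  have hmeas : Measurable fun q : EE (n + 1) × Ioi (0 : ℝ) => ‖MK (SS W a lam Lam q.2) q.1‖ₑ := by
    have h1 : Continuous fun z : (EE (n + 1) × Ioi (0 : ℝ)) × EE (n + 1) =>
        e (inner ℝ z.1.1 z.2) * SS W a lam Lam z.1.2 z.2 := by
      refine Continuous.mul
        (continuous_e.comp ((continuous_fst.comp continuous_fst).inner continuous_snd)) ?_
      exact SS_cont hW.1.continuous a lam hL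
        (fun z : (EE (n + 1) × Ioi (0 : ℝ)) × EE (n + 1) => (z.1.2 : ℝ)) (fun z => z.2)
        (continuous_subtype_val.comp (continuous_snd.comp continuous_fst)) continuous_snd
    have h3 := h1.stronglyMeasurable.integral_prod_right' (ν := (volume : Measure (EE (n + 1))))
    exact h3.measurable.enorm
  calc ∫⁻ x : EE (n + 1), ‖MK (mm W a lam Lam) x‖ₑ
      ≤ ∫⁻ x : EE (n + 1), ∫⁻ ρ : Ioi (0 : ℝ), ‖MK (SS W a lam Lam ρ) x‖ₑ ∂(nu n) := by
        refine lintegral_mono fun x => ?_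
        rw [hrep x]
        exact enorm_integral_le_lintegral_enorm _
    _ = ∫⁻ ρ : Ioi (0 : ℝ), (∫⁻ x : EE (n + 1), ‖MK (SS W a lam Lam ρ) x‖ₑ) ∂(nu n) :=
        lintegral_lintegral_swap hmeas.aemeasurable
    _ ≤ ∫⁻ ρ : Ioi (0 : ℝ), I9.indicator (fun _ => C * ENNReal.ofReal ((1 + ‖a‖) ^ (n + 2))) ρ
          ∂(nu n) := lintegral_mono hK1
    _ = C * ENNReal.ofReal ((1 + ‖a‖) ^ (n + 2)) * (nu n) I9 := by
        rw [lintegral_indicator_const I9_meas]
    _ = _ := by
        rw [ENNReal.coe_mul, ENNReal.coe_toNNReal (I9_fin n)]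
        ring

theorem ga (hK : T_KERN) : T_GA := by
  intro n p hn hp W hW
  have hn1 : 1 ≤ n := by omega
  obtain ⟨C, hC⟩ := mk_le hK hn hW
  obtain ⟨C₁, hC₁⟩ := avg n p hn hp
  obtain ⟨B, hB0, hB⟩ := AN_bdd hW
  refine ⟨C₁ * C ^ p, ?_⟩
  intro a lam Lam F hL hLl
  have hl : 0 < lam := by linarith
  have hmc : Continuous (mm W a lam Lam : EE (n + 1) → ℂ) := mm_cont hW a hl hL
  have hmi : Integrable (mm W a lam Lam : EE (n + 1) → ℂ) :=
    hmc.integrable_of_hasCompactSupport (mm_hcs hW a hl hL)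
  obtain ⟨D₀, hD₀⟩ := hmc.bounded_above_of_compact_support (mm_hcs hW a hl hL)
  set D := max D₀ 1 with hD
  have hDpos : 0 < D := lt_max_of_lt_right one_pos
  have hDb : ∀ ξ : EE (n + 1), ‖mm W a lam Lam ξ‖ ≤ D := fun ξ => (hD₀ ξ).trans (le_max_left _ _)
  have hFi : Integrable (F : EE (n + 1) → ℂ) := F.integrable
  have hFb : ∃ A : ℝ, ∀ x, ‖F x‖ ≤ A := by
    exact ⟨‖F.toBoundedContinuousFunction‖, fun x =>
      F.toBoundedContinuousFunction.norm_coe_le_norm x⟩
  have hFm : Measurable (F : EE (n + 1) → ℂ) := F.continuous.measurable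
  have hyoung : ∀ q : ℝ, 1 ≤ q → ∫⁻ x, ‖MM (mm W a lam Lam) F x‖ₑ ^ q ≤
      (∫⁻ x, ‖MK (mm W a lam Lam) x‖ₑ) ^ q * ∫⁻ x, ‖F x‖ₑ ^ q := fun q hq =>
    Pool.Agent.H73.LS.young_MM Pool.Agent.H19.LS.PLE_proof Pool.Agent.H19.LS.YG_proof q hq
      (mm W a lam Lam) F D hDpos hmc.measurable hDb hmi hFi hFb hFm
  set G : EE (n + 1) → ℂ := fun ξ => mm W a lam Lam ξ * 𝓕 (F : EE (n + 1) → ℂ) ξ with hG
  have hFc : Continuous (𝓕 (F : EE (n + 1) → ℂ)) := Pool.Agent.H19.LS.fourier_cont _ hFi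
  have hGc : Continuous G := hmc.mul hFc
  have hGi : Integrable G :=
    hGc.integrable_of_hasCompactSupport ((mm_hcs hW a hl hL).mul_right)
  set h : EE (n + 1) → ℂ := MM (mm W a lam Lam) F with hh
  have hh1 : ∀ x, h x = 𝓕 G (-x) := fun x => Pool.Agent.H19.LS.MM_fourier _ _ x
  have hhc : Continuous h := by
    have : h = fun x => 𝓕 G (-x) := funext hh1
    rw [this]
    exact (Pool.Agent.H19.LS.fourier_cont _ hGi).comp continuous_neg
  have hKfin : ∫⁻ x, ‖MK (mm W a lam Lam : EE (n + 1) → ℂ) x‖ₑ < ⊤ :=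
    (hC a lam Lam hL hLl).trans_lt (ENNReal.mul_lt_top ENNReal.coe_lt_top ENNReal.ofReal_lt_top)
  have hhi : Integrable h := by
    refine ⟨hhc.aestronglyMeasurable, ?_⟩
    have h1 := hyoung 1 le_rfl
    simp only [ENNReal.rpow_one] at h1
    exact h1.trans_lt (ENNReal.mul_lt_top hKfin hFi.2)
  have hhb : ∀ x, ‖h x‖ ≤ ∫ ξ, ‖G ξ‖ := by
    intro x
    rw [hh1 x, Pool.Agent.H19.LS.fourier_e]
    refine (norm_integral_le_integral_norm _).trans (le_of_eq ?_)
    congr 1
    funext y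
    rw [norm_mul, norm_e, one_mul]
  have hinv : 𝓕 h = G := by
    have h1 : h = 𝓕⁻ G := by
      funext x
      rw [hh1 x, Real.fourierInv_eq_fourier_neg]
    have h2 : Integrable (𝓕 G) := by
      have h3 : 𝓕 G = fun x => h (-x) := by
        funext x
        rw [hh1 (-x), neg_neg]
      rw [h3]
      exact hhi.comp_neg
    rw [h1]
    exact hGc.fourier_fourierInv_eq hGi h2
  obtain ⟨g1, g2, g3, g4, g5, g6⟩ := hC₁ h _ hhc.measurable hhi hhb
  refine ⟨av h, g1, g2, g3, g4, ?_, ?_⟩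
  · intro ξ
    rw [g5 ξ, hinv]
    unfold av
    simp only [hG]
    -- evaluate the symbol on the orbit
    have hx : ∀ ω : Sp n, xx lam Lam (jo (hor ξ • (ω : EE n)) (ξ (Fin.last n))) = xx lam Lam ξ := by
      intro ω
      have e1 : hor (jo (hor ξ • (ω : EE n)) (ξ (Fin.last n))) = hor ξ := by
        rw [hor_jo, norm_smul, norm_sp, mul_one, Real.norm_of_nonneg (hor_nonneg ξ)]
      have e2 : ‖jo (hor ξ • (ω : EE n)) (ξ (Fin.last n))‖ = ‖ξ‖ := by
        have h1 := norm_sq_eq (jo (hor ξ • (ω : EE n)) (ξ (Fin.last n)))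
        rw [e1, jo_last, ← norm_sq_eq ξ] at h1
        exact (sq_eq_sq₀ (norm_nonneg _) (norm_nonneg _)).1 h1
      unfold xx
      rw [e1, e2]
    show _ = ((xx lam Lam ξ : ℝ) : ℂ) * _
    by_cases h0 : xx lam Lam ξ = 0
    · have h1 : ∀ ω : Sp n, mm W a lam Lam (jo (hor ξ • (ω : EE n)) (ξ (Fin.last n))) = 0 := by
        intro ω
        unfold mm SS
        rw [hx ω, h0]
        simp
      simp_rw [h1]
      rw [h0]
      simp
    · have hpos : 0 < hor ξ := by
        have := (xx_supp hl hL h0).1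
        linarith
      have h1 : ∀ ω : Sp n, mm W a lam Lam (jo (hor ξ • (ω : EE n)) (ξ (Fin.last n))) =
          ((xx lam Lam ξ : ℝ) : ℂ) * ∫ ρ : Ioi (0 : ℝ), e (-(inner ℝ a ((ρ : ℝ) • (ω : EE n)))) *
            W ((ρ : ℝ) • (ω : EE n)) ∂(nu n) := by
        intro ω
        unfold mm
        rw [← integral_const_mul]
        refine integral_congr_ae (ae_of_all _ fun ρ => ?_)
        simp only
        have h2 : xx lam Lam (jo (hor ξ • (ω : EE n)) (ξ (Fin.last n))) ≠ 0 := by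
          rw [hx ω]
          exact h0
        have e1 : hor (jo (hor ξ • (ω : EE n)) (ξ (Fin.last n))) = hor ξ := by
          rw [hor_jo, norm_smul, norm_sp, mul_one, Real.norm_of_nonneg (hor_nonneg ξ)]
        have h3 : th Lam (jo (hor ξ • (ω : EE n)) (ξ (Fin.last n))) = (ω : EE n) := by
          rw [(th_norm hl hL h2).1, e1, pr_jo, smul_smul, one_div_mul_cancel hpos.ne', one_smul]
        unfold SS
        rw [h3, hx ω]
        ring
      simp_rw [h1, mul_assoc]
      rw [integral_const_mul]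
      congr 1
      -- polar coordinates on the right
      let H : EE n → ℂ := fun y => e (-(inner ℝ a y)) * (W y *
        𝓕 (F : EE (n + 1) → ℂ) (jo ((hor ξ / ‖y‖) • y) (ξ (Fin.last n))))
      have hHm : Measurable H := by
        refine ((continuous_e.comp (by fun_prop)).measurable).mul
          (hW.1.continuous.measurable.mul (hFc.measurable.comp ?_))
        have h4 : Measurable fun y : EE n => (((hor ξ / ‖y‖) • y, ξ (Fin.last n)) : EE n × ℝ) := by
          fun_prop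
        exact continuous_jo.measurable.comp h4
      obtain ⟨A, hA⟩ : ∃ A : ℝ, ∀ ξ, ‖𝓕 (F : EE (n + 1) → ℂ) ξ‖ ≤ A := by
        refine ⟨∫ y, ‖F y‖, fun ξ => ?_⟩
        rw [Pool.Agent.H19.LS.fourier_e]
        refine (norm_integral_le_integral_norm _).trans (le_of_eq ?_)
        congr 1
        funext y
        rw [norm_mul, norm_e, one_mul]
      have hA0 : 0 ≤ A := (norm_nonneg _).trans (hA 0)
      have hHi : Integrable H := by
        have h5 : Integrable ((Metric.closedBall (0 : EE n) 8).indicator fun _ => B * A) := by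
          rw [integrable_indicator_iff measurableSet_closedBall]
          exact integrableOn_const measure_closedBall_lt_top.ne (by finiteness)
        refine h5.mono' hHm.aestronglyMeasurable (ae_of_all _ fun y => ?_)
        simp only [H]
        rw [norm_mul, norm_e, one_mul, norm_mul]
        by_cases h6 : W y = 0
        · rw [h6, norm_zero, zero_mul]
          exact indicator_nonneg (fun _ _ => mul_nonneg hB0.le hA0) _
        · rw [indicator_of_mem (by rw [mem_closedBall_zero_iff]; exact (hW.2 y h6).2)]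
          exact mul_le_mul (hB y) (hA _) (norm_nonneg _) hB0.le
      show _ = ∫ y : EE n, H y
      rw [← integral_mp (mp_polar n hn1) hHm.aestronglyMeasurable]
      have hHi' : Integrable (fun q : Sp n × Ioi (0 : ℝ) => H ((q.2 : ℝ) • (q.1 : EE n)))
          ((sg n).prod (nu n)) := (mp_polar n hn1).integrable_comp_of_integrable hHi
      rw [integral_prod _ hHi']
      refine integral_congr_ae (ae_of_all _ fun ω => ?_)
      simp only
      rw [← integral_mul_const]
      refine integral_congr_ae (ae_of_all _ fun ρ => ?_)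
      simp only [H]
      have hρ : 0 < (ρ : ℝ) := ρ.2
      have h7 : ‖(ρ : ℝ) • (ω : EE n)‖ = ρ := by
        rw [norm_smul, norm_sp, mul_one, Real.norm_of_nonneg hρ.le]
      rw [h7, smul_smul, div_mul_cancel₀ _ hρ.ne', mul_assoc]
  · have hp0 : 0 ≤ p := by linarith
    calc ∫⁻ x, ‖av h x‖ₑ ^ p ≤ C₁ * ∫⁻ x, ‖h x‖ₑ ^ p := g6
      _ ≤ C₁ * ((∫⁻ x, ‖MK (mm W a lam Lam) x‖ₑ) ^ p * ∫⁻ x, ‖F x‖ₑ ^ p) := by
          gcongr
          exact hyoung p hp
      _ ≤ C₁ * ((C * ENNReal.ofReal ((1 + ‖a‖) ^ (n + 2))) ^ p * ∫⁻ x, ‖F x‖ₑ ^ p) := by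
          gcongr
          exact hC a lam Lam hL hLl
      _ = _ := by
          rw [ENNReal.mul_rpow_of_nonneg _ _ hp0,
            ENNReal.ofReal_rpow_of_nonneg (by positivity) hp0, ENNReal.coe_mul,
            ENNReal.coe_rpow_of_nonneg _ hp0]
          ring

end Pool.Agent.H54.LS.GA
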